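import Mathlib
import Pool.Agent.V11191.Opp.Defs
import Pool.Agent.V11191.Opp.Final

namespace Pool.Agent.Results.MP_da270e_gt.NoOppositeSegments

open Pool.Agent.V11191.Opp

/-- There is a smooth function `φ` such that the two-sphere with the Riemannian metric
`e^{2φ} g₀`, conformal to the round metric `g₀`, does not have property (O). -/
theorem result : ∃ φ : E3 → ℝ, ContDiff ℝ (⊤ : ℕ∞) φ ∧ ¬ PropertyO φ :=
  main

end Pool.Agent.Results.MP_da270e_gt.NoOppositeSegments
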